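import Pool.Agent.H3.BI.Stm2

/-!
# Part GEO of project BD (helper68)
-/

set_option autoImplicit false

open scoped ENNReal
open Finset MeasureTheory

namespace Pool.Agent.H68.BD

open Pool.Agent.H3.BI

/-- The scalar product. -/
noncomputable def dot {d : ℕ} (x z : Site d) : ℝ := ∑ i, (x i : ℝ) * (z i : ℝ)

theorem nsq_sub {d : ℕ} (x z : Site d) : nsq (x - z) = nsq x - 2 * dot x z + nsq z := by
  unfold nsq dot
  rw [Finset.mul_sum, ← Finset.sum_sub_distrib, ← Finset.sum_add_distrib]
  refine Finset.sum_congr rfl fun i _ => ?_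
  simp only [Pi.sub_apply, Int.cast_sub]
  ring

theorem dot_sq_le {d : ℕ} (x z : Site d) : dot x z ^ 2 ≤ nsq x * nsq z := by
  unfold nsq dot
  exact Finset.sum_mul_sq_le_sq_mul_sq _ _ _

theorem abs_dot_le {d : ℕ} (x z : Site d) : |dot x z| ≤ nrm x * nrm z := by
  have h := dot_sq_le x z
  rw [← nrm_sq x, ← nrm_sq z, ← mul_pow] at h
  exact abs_le_of_sq_le_sq h (mul_nonneg (nrm_nonneg _) (nrm_nonneg _))

theorem dot_neg {d : ℕ} (x z : Site d) : dot (-x) z = -dot x z := by
  unfold dot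
  rw [← Finset.sum_neg_distrib]
  refine Finset.sum_congr rfl fun i _ => ?_
  simp only [Pi.neg_apply, Int.cast_neg]
  ring

theorem nsq_neg {d : ℕ} (x : Site d) : nsq (-x) = nsq x := by
  unfold nsq
  refine Finset.sum_congr rfl fun i _ => ?_
  simp only [Pi.neg_apply, Int.cast_neg]
  ring

theorem Ez_eq {d : ℕ} (N : ℝ) (z x : Site d) (hN : N ≠ 0) :
    Ez N z x = N ^ 2 - 2 * dot x z + nsq x * nsq z / N ^ 2 := by
  unfold Ez
  rw [nsq_sub]
  field_simp
  ring

theorem qr_sub {d : ℕ} (x z : Site d) (t : ℝ) :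
    qr (fun i => (x i : ℝ) - t * (z i : ℝ)) = nsq x - 2 * t * dot x z + t ^ 2 * nsq z := by
  unfold qr nsq dot
  rw [Finset.mul_sum, Finset.mul_sum, ← Finset.sum_sub_distrib, ← Finset.sum_add_distrib]
  refine Finset.sum_congr rfl fun i _ => ?_
  ring

theorem t_GEO : S_GEO := by
  intro d c₀ hd hc hc1
  refine ⟨4, by norm_num, ?_⟩
  intro N z hG
  have hz0 : 0 ≤ nrm z := nrm_nonneg z
  have hN1 : 1 ≤ N := by linarith [hG.hi]
  have hN : 0 < N := by linarith
  have hN0 : N ≠ 0 := hN.ne'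
  have hzp : 0 < nrm z := lt_of_lt_of_le (mul_pos hc hN) hG.lo
  have hzs : 0 < nsq z := by rw [← nrm_sq]; positivity
  have hzN : nrm z + 1 ≤ N := hG.hi
  have key : ∀ x : Site d, Ez N z x - nsq (x - z) =
      ((N - nrm x) * (N - nrm z)) * ((N + nrm x) * (N + nrm z) / N ^ 2) := by
    intro x
    unfold Ez
    rw [← nrm_sq x, ← nrm_sq z]
    ring
  refine ⟨fun i => N ^ 2 / nsq z * (z i : ℝ), ?_, ?_, ?_⟩
  · intro x
    rw [Ez_eq N z x hN0, qr_sub]
    field_simp
    ring
  · intro x hx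
    have hx0 := nrm_nonneg x
    have hA : 0 ≤ (N - nrm x) * (N - nrm z) := mul_nonneg (by linarith) (by linarith)
    have hB1 : 1 ≤ (N + nrm x) * (N + nrm z) / N ^ 2 := by
      rw [le_div_iff₀ (by positivity)]
      nlinarith
    have hB2 : (N + nrm x) * (N + nrm z) / N ^ 2 ≤ 4 := by
      rw [div_le_iff₀ (by positivity)]
      nlinarith
    refine ⟨?_, ?_, ?_, ?_⟩
    · have h1 : (N - nrm x * nrm z / N) ^ 2 ≤ Ez N z x := by
        rw [Ez_eq N z x hN0]
        have h2 : dot x z ≤ nrm x * nrm z := (le_abs_self _).trans (abs_dot_le x z)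
        have h3 : (N - nrm x * nrm z / N) ^ 2 =
            N ^ 2 - 2 * (nrm x * nrm z) + nsq x * nsq z / N ^ 2 := by
          rw [← nrm_sq x, ← nrm_sq z]
          field_simp
          ring
        rw [h3]
        linarith
      have h4 : N - nrm z ≤ N - nrm x * nrm z / N := by
        have : nrm x * nrm z / N ≤ nrm z := by
          rw [div_le_iff₀ hN]
          nlinarith
        linarith
      have h5 : (N - nrm z) ^ 2 ≤ (N - nrm x * nrm z / N) ^ 2 :=
        pow_le_pow_left₀ (by linarith) h4 2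
      have h6 : 0 ≤ Ez N z x := le_trans (sq_nonneg _) h1
      linarith
    · have := key x
      have h7 : 0 ≤ ((N - nrm x) * (N - nrm z)) * ((N + nrm x) * (N + nrm z) / N ^ 2) :=
        mul_nonneg hA (by linarith)
      linarith
    · rw [key x]
      calc ((N - nrm x) * (N - nrm z)) * ((N + nrm x) * (N + nrm z) / N ^ 2)
          ≤ ((N - nrm x) * (N - nrm z)) * 4 := mul_le_mul_of_nonneg_left hB2 hA
        _ = 4 * (N - nrm z) * (N - nrm x) := by ring
    · rw [key x]
      nlinarith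
  · intro x hx
    have hx0 := nrm_nonneg x
    have h1 : nsq (x - z) - Ez N z x =
        ((nrm x - N) * (N - nrm z)) * ((N + nrm x) * (N + nrm z) / N ^ 2) := by
      have := key x
      linear_combination -this
    rw [h1]
    have hA : 0 ≤ (nrm x - N) * (N - nrm z) := mul_nonneg (by linarith) (by linarith)
    have hB1 : 1 ≤ (N + nrm x) * (N + nrm z) / N ^ 2 := by
      rw [le_div_iff₀ (by positivity)]
      nlinarith
    nlinarith

end Pool.Agent.H68.BD
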