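import Pool.Agent.H68.BD.GEO

/-!
# Part SD2 of project BD (helper68)
-/

set_option autoImplicit false

open scoped ENNReal
open Finset MeasureTheory

namespace Pool.Agent.H68.BD

open Pool.Agent.H3.BI

theorem hasDerivAt_rp (γ c k : ℝ) (t : ℝ) (h : 0 < c + k * t) :
    HasDerivAt (fun s : ℝ => (c + k * s) ^ (-γ)) (-γ * k * (c + k * t) ^ (-γ - 1)) t := by
  have h1 : HasDerivAt (fun s : ℝ => c + k * s) k t := by
    simpa using ((hasDerivAt_id t).const_mul k).const_add c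
  have h2 := h1.rpow_const (p := -γ) (Or.inl h.ne')
  convert h2 using 1
  ring

/-- First differences. -/
theorem fd {γ M : ℝ} (hγ : 0 < γ) (hM : 0 < M) {X Y : ℝ} (hX : M ≤ X) (hY : M ≤ Y) :
    |X ^ (-γ) - Y ^ (-γ)| ≤ γ * |X - Y| * M ^ (-γ - 1) := by
  have h1 : ∀ t ∈ Set.Ici M, HasDerivWithinAt (fun s : ℝ => s ^ (-γ)) (-γ * t ^ (-γ - 1))
      (Set.Ici M) t := by
    intro t ht
    have : 0 < t := lt_of_lt_of_le hM ht
    exact ((Real.hasDerivAt_rpow_const (p := -γ) (Or.inl this.ne'))).hasDerivWithinAt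
  have h2 : ∀ t ∈ Set.Ici M, ‖-γ * t ^ (-γ - 1)‖ ≤ γ * M ^ (-γ - 1) := by
    intro t ht
    have h0 : 0 < t := lt_of_lt_of_le hM ht
    rw [norm_mul, Real.norm_eq_abs, abs_neg, abs_of_pos hγ, Real.norm_eq_abs,
      abs_of_pos (Real.rpow_pos_of_pos h0 _)]
    exact mul_le_mul_of_nonneg_left (Real.rpow_le_rpow_of_nonpos hM ht (by linarith)) hγ.le
  have h3 := Convex.norm_image_sub_le_of_norm_hasDerivWithin_le h1 h2 (convex_Ici M) hY hX
  rw [Real.norm_eq_abs, Real.norm_eq_abs] at h3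
  calc |X ^ (-γ) - Y ^ (-γ)| ≤ γ * M ^ (-γ - 1) * |X - Y| := h3
    _ = γ * |X - Y| * M ^ (-γ - 1) := by ring

/-- Second differences. -/
theorem sd {γ M : ℝ} (hγ : 0 < γ) (hM : 0 < M) {X τ : ℝ} (hX : M + |τ| ≤ X) :
    |(X - τ) ^ (-γ) + (X + τ) ^ (-γ) - 2 * X ^ (-γ)| ≤
      2 * γ * (γ + 1) * τ ^ 2 * M ^ (-γ - 2) := by
  have h1 : ∀ t ∈ Set.Icc (0 : ℝ) 1,
      HasDerivWithinAt (fun s : ℝ => (X + (-τ) * s) ^ (-γ) + (X + τ * s) ^ (-γ))
        (-γ * (-τ) * (X + (-τ) * t) ^ (-γ - 1) + -γ * τ * (X + τ * t) ^ (-γ - 1))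
        (Set.Icc 0 1) t := by
    intro t ht
    have ha : |τ * t| ≤ |τ| := by
      rw [abs_mul, abs_of_nonneg ht.1]
      exact mul_le_of_le_one_right (abs_nonneg _) ht.2
    have ha' := abs_le.1 ha
    refine ((hasDerivAt_rp γ X (-τ) t (by linarith)).add
      (hasDerivAt_rp γ X τ t (by linarith))).hasDerivWithinAt
  have h2 : ∀ t ∈ Set.Icc (0 : ℝ) 1,
      ‖-γ * (-τ) * (X + (-τ) * t) ^ (-γ - 1) + -γ * τ * (X + τ * t) ^ (-γ - 1)‖ ≤
        2 * γ * (γ + 1) * τ ^ 2 * M ^ (-γ - 2) := by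
    intro t ht
    have ha : |τ * t| ≤ |τ| := by
      rw [abs_mul, abs_of_nonneg ht.1]
      exact mul_le_of_le_one_right (abs_nonneg _) ht.2
    have ha' := abs_le.1 ha
    have e1 : -γ * (-τ) * (X + (-τ) * t) ^ (-γ - 1) + -γ * τ * (X + τ * t) ^ (-γ - 1) =
        γ * τ * ((X + (-τ) * t) ^ (-(γ + 1)) - (X + τ * t) ^ (-(γ + 1))) := by
      rw [show -γ - 1 = -(γ + 1) by ring]
      ring
    rw [e1, Real.norm_eq_abs, abs_mul, abs_mul, abs_of_pos hγ]
    have h3 := fd (γ := γ + 1) (M := M) (by linarith) hM (X := X + (-τ) * t) (Y := X + τ * t)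
      (by linarith) (by linarith)
    have e2 : X + (-τ) * t - (X + τ * t) = -(2 * (τ * t)) := by ring
    rw [e2, abs_neg, abs_mul, abs_two, show -(γ + 1) - 1 = -γ - 2 by ring] at h3
    have hMp : 0 < M ^ (-γ - 2) := Real.rpow_pos_of_pos hM _
    calc γ * |τ| * |(X + (-τ) * t) ^ (-(γ + 1)) - (X + τ * t) ^ (-(γ + 1))|
        ≤ γ * |τ| * ((γ + 1) * (2 * |τ * t|) * M ^ (-γ - 2)) :=
          mul_le_mul_of_nonneg_left h3 (by positivity)
      _ ≤ γ * |τ| * ((γ + 1) * (2 * |τ|) * M ^ (-γ - 2)) := by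
          gcongr
      _ = 2 * γ * (γ + 1) * |τ| ^ 2 * M ^ (-γ - 2) := by ring
      _ = 2 * γ * (γ + 1) * τ ^ 2 * M ^ (-γ - 2) := by rw [sq_abs]
  have h3 := Convex.norm_image_sub_le_of_norm_hasDerivWithin_le h1 h2 (convex_Icc 0 1)
    (Set.left_mem_Icc.2 zero_le_one) (Set.right_mem_Icc.2 zero_le_one)
  rw [Real.norm_eq_abs, Real.norm_eq_abs] at h3
  simp only [mul_one, mul_zero, add_zero, sub_zero, abs_one] at h3
  calc |(X - τ) ^ (-γ) + (X + τ) ^ (-γ) - 2 * X ^ (-γ)|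
      = |(X + -τ) ^ (-γ) + (X + τ) ^ (-γ) - (X ^ (-γ) + X ^ (-γ))| := by
        rw [← sub_eq_add_neg]
        congr 1
        ring
    _ ≤ _ := h3

/-- Differences of second differences. -/
theorem sd2 {γ M : ℝ} (hγ : 0 < γ) (hM : 0 < M) {X Y τ : ℝ} (hX : M + |τ| ≤ X)
    (hY : M + |τ| ≤ Y) :
    |((X - τ) ^ (-γ) + (X + τ) ^ (-γ) - 2 * X ^ (-γ)) -
      ((Y - τ) ^ (-γ) + (Y + τ) ^ (-γ) - 2 * Y ^ (-γ))| ≤
      2 * γ * (γ + 1) * (γ + 2) * |X - Y| * τ ^ 2 * M ^ (-γ - 3) := by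
  have h1 : ∀ t ∈ Set.Ici (M + |τ|),
      HasDerivWithinAt (fun s : ℝ => (s - τ) ^ (-γ) + (s + τ) ^ (-γ) - 2 * s ^ (-γ))
        (-γ * ((t - τ) ^ (-(γ + 1)) + (t + τ) ^ (-(γ + 1)) - 2 * t ^ (-(γ + 1))))
        (Set.Ici (M + |τ|)) t := by
    intro t ht
    have ht' : M + |τ| ≤ t := ht
    have hτ1 := neg_abs_le τ
    have hτ2 := le_abs_self τ
    have hτ0 := abs_nonneg τ
    have g1 : HasDerivAt (fun s : ℝ => (s - τ) ^ (-γ)) (-γ * (t - τ) ^ (-γ - 1)) t := by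
      have h := hasDerivAt_rp γ (-τ) 1 t (by linarith)
      simp only [mul_one, one_mul] at h
      have e : (fun s : ℝ => (s - τ) ^ (-γ)) = fun s => (-τ + s) ^ (-γ) := by
        funext s
        rw [neg_add_eq_sub]
      rw [e, ← neg_add_eq_sub]
      exact h
    have g2 : HasDerivAt (fun s : ℝ => (s + τ) ^ (-γ)) (-γ * (t + τ) ^ (-γ - 1)) t := by
      have h := hasDerivAt_rp γ τ 1 t (by linarith)
      simp only [mul_one, one_mul] at h
      have e : (fun s : ℝ => (s + τ) ^ (-γ)) = fun s => (τ + s) ^ (-γ) := by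
        funext s
        rw [add_comm]
      rw [e, add_comm t τ]
      exact h
    have g3 : HasDerivAt (fun s : ℝ => s ^ (-γ)) (-γ * t ^ (-γ - 1)) t :=
      Real.hasDerivAt_rpow_const (p := -γ) (Or.inl (by linarith))
    have g : HasDerivAt (fun s : ℝ => (s - τ) ^ (-γ) + (s + τ) ^ (-γ) - 2 * s ^ (-γ))
        (-γ * (t - τ) ^ (-γ - 1) + -γ * (t + τ) ^ (-γ - 1) - 2 * (-γ * t ^ (-γ - 1))) t :=
      (g1.add g2).sub (g3.const_mul 2)
    refine (g.congr_deriv ?_).hasDerivWithinAt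
    rw [show -(γ + 1) = -γ - 1 by ring]
    ring
  have h2 : ∀ t ∈ Set.Ici (M + |τ|),
      ‖-γ * ((t - τ) ^ (-(γ + 1)) + (t + τ) ^ (-(γ + 1)) - 2 * t ^ (-(γ + 1)))‖ ≤
        2 * γ * (γ + 1) * (γ + 2) * τ ^ 2 * M ^ (-γ - 3) := by
    intro t ht
    rw [norm_mul, Real.norm_eq_abs, abs_neg, abs_of_pos hγ, Real.norm_eq_abs]
    have h3 := sd (γ := γ + 1) (by linarith) hM (X := t) (τ := τ) ht
    rw [show -(γ + 1) - 2 = -γ - 3 by ring] at h3
    calc γ * |(t - τ) ^ (-(γ + 1)) + (t + τ) ^ (-(γ + 1)) - 2 * t ^ (-(γ + 1))|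
        ≤ γ * (2 * (γ + 1) * (γ + 1 + 1) * τ ^ 2 * M ^ (-γ - 3)) :=
          mul_le_mul_of_nonneg_left h3 hγ.le
      _ = _ := by ring
  have h3 := Convex.norm_image_sub_le_of_norm_hasDerivWithin_le h1 h2 (convex_Ici _) hY hX
  rw [Real.norm_eq_abs, Real.norm_eq_abs] at h3
  refine h3.trans (le_of_eq ?_)
  ring

/-- Differences of first differences. -/
theorem fo {γ M : ℝ} (hγ : 0 < γ) (hM : 0 < M) {X Y s k Δ : ℝ} (hs : 0 ≤ s) (hk : 0 ≤ k)
    (hk1 : k ≤ 1) (hX : M ≤ X) (hY : M ≤ Y) (h0 : |X - Y| ≤ Δ)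
    (h1 : |(X + s) - (Y + k * s)| ≤ Δ) :
    |((X + s) ^ (-γ) - X ^ (-γ)) - ((Y + k * s) ^ (-γ) - Y ^ (-γ))| ≤
      γ * s * ((γ + 1) * Δ * M ^ (-γ - 2) + (1 - k) * M ^ (-γ - 1)) := by
  have hks : 0 ≤ k * s := mul_nonneg hk hs
  have d1 : ∀ t ∈ Set.Icc (0 : ℝ) 1,
      HasDerivWithinAt (fun t : ℝ => (X + s * t) ^ (-γ) - (Y + (k * s) * t) ^ (-γ))
        (-γ * s * (X + s * t) ^ (-γ - 1) - -γ * (k * s) * (Y + (k * s) * t) ^ (-γ - 1))
        (Set.Icc 0 1) t := by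
    intro t ht
    have g1 : 0 ≤ s * t := mul_nonneg hs ht.1
    have g2 : 0 ≤ (k * s) * t := mul_nonneg hks ht.1
    exact ((hasDerivAt_rp γ X s t (by linarith)).sub
      (hasDerivAt_rp γ Y (k * s) t (by linarith))).hasDerivWithinAt
  have d2 : ∀ t ∈ Set.Icc (0 : ℝ) 1,
      ‖-γ * s * (X + s * t) ^ (-γ - 1) - -γ * (k * s) * (Y + (k * s) * t) ^ (-γ - 1)‖ ≤
        γ * s * ((γ + 1) * Δ * M ^ (-γ - 2) + (1 - k) * M ^ (-γ - 1)) := by
    intro t ht
    have g1 : 0 ≤ s * t := mul_nonneg hs ht.1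
    have g2 : 0 ≤ (k * s) * t := mul_nonneg hks ht.1
    have e1 : -γ * s * (X + s * t) ^ (-γ - 1) - -γ * (k * s) * (Y + (k * s) * t) ^ (-γ - 1) =
        -(γ * s) * (((X + s * t) ^ (-(γ + 1)) - (Y + (k * s) * t) ^ (-(γ + 1))) +
          (1 - k) * (Y + (k * s) * t) ^ (-(γ + 1))) := by
      rw [show -γ - 1 = -(γ + 1) by ring]
      ring
    rw [e1, Real.norm_eq_abs, abs_mul, abs_neg, abs_of_nonneg (mul_nonneg hγ.le hs)]
    refine mul_le_mul_of_nonneg_left ?_ (mul_nonneg hγ.le hs)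
    refine (abs_add_le _ _).trans (add_le_add ?_ ?_)
    · have h3 := fd (γ := γ + 1) (M := M) (by linarith) hM (X := X + s * t)
        (Y := Y + (k * s) * t) (by linarith) (by linarith)
      rw [show -(γ + 1) - 1 = -γ - 2 by ring] at h3
      refine h3.trans ?_
      have e2 : X + s * t - (Y + k * s * t) = (1 - t) * (X - Y) + t * ((X + s) - (Y + k * s)) := by
        ring
      have e3 : |X + s * t - (Y + k * s * t)| ≤ Δ := by
        rw [e2]
        refine (abs_add_le _ _).trans ?_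
        rw [abs_mul, abs_mul, abs_of_nonneg (by linarith [ht.2] : (0 : ℝ) ≤ 1 - t),
          abs_of_nonneg ht.1]
        calc (1 - t) * |X - Y| + t * |(X + s) - (Y + k * s)|
            ≤ (1 - t) * Δ + t * Δ := add_le_add
              (mul_le_mul_of_nonneg_left h0 (by linarith [ht.2]))
              (mul_le_mul_of_nonneg_left h1 ht.1)
          _ = Δ := by ring
      have hMp : 0 < M ^ (-γ - 2) := Real.rpow_pos_of_pos hM _
      gcongr
    · have hYp : 0 < Y + (k * s) * t := by linarith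
      rw [abs_mul, abs_of_nonneg (by linarith : (0 : ℝ) ≤ 1 - k),
        abs_of_pos (Real.rpow_pos_of_pos hYp _)]
      refine mul_le_mul_of_nonneg_left ?_ (by linarith)
      rw [show -(γ + 1) = -γ - 1 by ring]
      exact Real.rpow_le_rpow_of_nonpos hM (by linarith) (by linarith)
  have h3 := Convex.norm_image_sub_le_of_norm_hasDerivWithin_le d1 d2 (convex_Icc 0 1)
    (Set.left_mem_Icc.2 zero_le_one) (Set.right_mem_Icc.2 zero_le_one)
  rw [Real.norm_eq_abs, Real.norm_eq_abs] at h3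
  simp only [mul_one, mul_zero, add_zero, sub_zero, abs_one] at h3
  refine le_trans (le_of_eq ?_) h3
  congr 1
  ring

theorem bt_pos {d : ℕ} (hd : 3 ≤ d) : 0 < bt d := by
  unfold bt
  have : (3 : ℝ) ≤ d := by exact_mod_cast hd
  linarith

/-- Powers of `nsq z`. -/
theorem pow_bound {d : ℕ} {c₀ N : ℝ} {z : Site d} (j : ℕ) (hc : 0 < c₀) (hN : 0 < N)
    (h : c₀ * N ≤ nrm z) : nsq z ^ (-bt d - j) ≤ 1 / c₀ ^ (d - 2 + 2 * j) / N ^ (d - 2 + 2 * j) ∨
      d < 3 := by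
  by_cases hd : 3 ≤ d
  · left
    have hcN : 0 < c₀ * N := mul_pos hc hN
    have h1 : (c₀ * N) ^ 2 ≤ nsq z := by
      rw [← nrm_sq]
      exact pow_le_pow_left₀ hcN.le h 2
    have hb := bt_pos hd
    have h2 : nsq z ^ (-bt d - j) ≤ ((c₀ * N) ^ 2) ^ (-bt d - (j : ℝ)) :=
      Real.rpow_le_rpow_of_nonpos (by positivity) h1 (by
        have : (0 : ℝ) ≤ j := Nat.cast_nonneg j
        linarith)
    have h3 : ((c₀ * N) ^ 2) ^ (-bt d - (j : ℝ)) = 1 / c₀ ^ (d - 2 + 2 * j) /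
        N ^ (d - 2 + 2 * j) := by
      rw [← Real.rpow_natCast (c₀ * N) 2, ← Real.rpow_mul hcN.le]
      have e : ((2 : ℕ) : ℝ) * (-bt d - (j : ℝ)) = -((d - 2 + 2 * j : ℕ) : ℝ) := by
        unfold bt
        push_cast [Nat.cast_sub (show 2 ≤ d by omega)]
        ring
      rw [e, Real.rpow_neg hcN.le, Real.rpow_natCast, mul_pow]
      field_simp
    rw [← h3]
    exact h2
  · right
    omega

theorem t_SD2 : S_SD2 := by
  intro hGEO d a b c₀ hd ha hb hc hc1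
  set β := bt d with hβ
  have hβp : 0 < β := bt_pos hd
  set K2 : ℝ := 1 / c₀ ^ (d + 2) with hK2
  set K1 : ℝ := 1 / c₀ ^ d with hK1
  have hK2p : 0 < K2 := by positivity
  have hK1p : 0 < K1 := by positivity
  set K3 : ℝ := 8 * β * (β + 1) * (β + 2) * 2 ^ (β + 3) * (2 + a + b) * K2 +
    2 * β * (β + 1) * (2 + a + b) * K2 + 4 * β * K1 with hK3
  have hK3p : 0 ≤ K3 := by positivity
  refine ⟨1 + a + b + K3, by linarith, ?_⟩
  intro N z hG x hx
  have hz0 := nrm_nonneg z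
  have hx0 := nrm_nonneg x
  have hN1 : 1 ≤ N := by linarith [hG.hi]
  have hN : 0 < N := by linarith
  have hq : 1 + a + b ≤ N - nrm z := by linarith [hG.hi]
  have hq1 : 1 ≤ N - nrm z := by linarith
  have hzp : 0 < nrm z := lt_of_lt_of_le (mul_pos hc hN) hG.lo
  set M := nsq z with hM
  set s := nsq x with hs
  set τ := 2 * dot x z with hτ
  have hMe : M = nrm z ^ 2 := (nrm_sq z).symm
  have hse : s = nrm x ^ 2 := (nrm_sq x).symm
  have hMp : 0 < M := by rw [hMe]; positivity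
  have hs0 : 0 ≤ s := nsq_nonneg x
  have hzN : nrm z ≤ N := by linarith
  have hMN : M ≤ N ^ 2 := by rw [hMe]; exact pow_le_pow_left₀ hz0 hzN 2
  have hsN : s ≤ N ^ 2 := by
    rw [hse]; exact pow_le_pow_left₀ hx0 (by linarith) 2
  have hNM : N ^ 2 - M = (N - nrm z) * (N + nrm z) := by rw [hMe]; ring
  have hτM : |τ| ≤ M / 2 := by
    rw [hτ, abs_mul, abs_two]
    have := abs_dot_le x z
    rw [hMe]
    nlinarith
  have hτ2 : τ ^ 2 ≤ 4 * s * M := by
    have := dot_sq_le x z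
    rw [hτ]
    nlinarith
  set k := M / N ^ 2 with hk
  have hk0 : 0 ≤ k := by positivity
  have hk1 : k ≤ 1 := by rw [hk, div_le_one (by positivity)]; exact hMN
  set Δ := N ^ 2 - M + a + b with hΔ
  have hX : M ≤ M + a := by linarith
  have hY : M ≤ N ^ 2 - b := by
    have : b ≤ (N - nrm z) * (N + nrm z) := by nlinarith
    linarith
  have hD0 : |(M + a) - (N ^ 2 - b)| ≤ Δ := by
    rw [abs_le]
    constructor <;> linarith
  have hD1 : |(M + a + s) - (N ^ 2 - b + k * s)| ≤ Δ := by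
    have e : (M + a + s) - (N ^ 2 - b + k * s) = a + b - (N ^ 2 - M) * (1 - s / N ^ 2) := by
      rw [hk]
      field_simp
      ring
    have f1 : 0 ≤ 1 - s / N ^ 2 := by
      rw [sub_nonneg, div_le_one (by positivity)]
      exact hsN
    have f2 : 1 - s / N ^ 2 ≤ 1 := by
      have : 0 ≤ s / N ^ 2 := by positivity
      linarith
    have f3 : 0 ≤ (N ^ 2 - M) * (1 - s / N ^ 2) := mul_nonneg (by linarith) f1
    have f4 : (N ^ 2 - M) * (1 - s / N ^ 2) ≤ N ^ 2 - M :=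
      mul_le_of_le_one_right (by linarith) f2
    rw [e, abs_le]
    constructor <;> linarith
  have hks0 : 0 ≤ k * s := mul_nonneg hk0 hs0
  have A1 := fo (γ := β) hβp hMp hs0 hk0 hk1 hX hY hD0 hD1
  have A2 := sd2 (γ := β) (M := M / 2) hβp (by positivity) (X := M + a + s)
    (Y := N ^ 2 - b + k * s) (τ := τ) (by linarith) (by linarith)
  have u1 : uS d a b N z x = (M + a + s - τ) ^ (-β) - (N ^ 2 - b + k * s - τ) ^ (-β) := by
    unfold uS
    rw [nsq_sub, Ez_eq N z x hN.ne']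
    rw [show nsq x - 2 * dot x z + nsq z + a = M + a + s - τ by rw [hτ, hM, hs]; ring]
    rw [show N ^ 2 - 2 * dot x z + nsq x * nsq z / N ^ 2 - b = N ^ 2 - b + k * s - τ by
      rw [hτ, hk, hM, hs]; ring]
  have u2 : uS d a b N z (-x) = (M + a + s + τ) ^ (-β) - (N ^ 2 - b + k * s + τ) ^ (-β) := by
    unfold uS
    rw [nsq_sub, Ez_eq N z (-x) hN.ne', dot_neg, nsq_neg]
    rw [show nsq x - 2 * -dot x z + nsq z + a = M + a + s + τ by rw [hτ, hM, hs]; ring]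
    rw [show N ^ 2 - 2 * -dot x z + nsq x * nsq z / N ^ 2 - b = N ^ 2 - b + k * s + τ by
      rw [hτ, hk, hM, hs]; ring]
  have u3 : uS d a b N z 0 = (M + a) ^ (-β) - (N ^ 2 - b) ^ (-β) := by
    have hd0 : dot (0 : Site d) z = 0 := by simp [dot]
    have hn0 : nsq (0 : Site d) = 0 := by simp [nsq]
    unfold uS
    rw [nsq_sub, Ez_eq N z 0 hN.ne', hd0, hn0]
    rw [show (0 : ℝ) - 2 * 0 + nsq z + a = M + a by rw [hM]; ring]
    rw [show N ^ 2 - 2 * 0 + 0 * nsq z / N ^ 2 - b = N ^ 2 - b by ring]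
  have tot : uS d a b N z x + uS d a b N z (-x) - 2 * uS d a b N z 0 =
      (((M + a + s - τ) ^ (-β) + (M + a + s + τ) ^ (-β) - 2 * (M + a + s) ^ (-β)) -
      ((N ^ 2 - b + k * s - τ) ^ (-β) + (N ^ 2 - b + k * s + τ) ^ (-β) -
        2 * (N ^ 2 - b + k * s) ^ (-β))) +
      2 * (((M + a + s) ^ (-β) - (M + a) ^ (-β)) -
        ((N ^ 2 - b + k * s) ^ (-β) - (N ^ 2 - b) ^ (-β))) := by
    rw [u1, u2, u3]
    ring
  rw [tot]
  refine (abs_add_le _ _).trans ?_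
  rw [abs_mul, abs_two]
  have hΔ0 : 0 ≤ Δ := by linarith
  have hΔ1 : Δ ≤ (2 + a + b) * (N * (N - nrm z)) := by
    have g1 : 1 ≤ N * (N - nrm z) := by nlinarith
    have g2 : N ^ 2 - M ≤ 2 * (N * (N - nrm z)) := by rw [hNM]; nlinarith
    have g3 : a + b ≤ (a + b) * (N * (N - nrm z)) := le_mul_of_one_le_right (by linarith) g1
    rw [hΔ]
    nlinarith
  have p2 : M ^ (-β - 2) ≤ K2 / N ^ (d + 2) := by
    have := (pow_bound (d := d) 2 hc hN hG.lo).resolve_right (by omega)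
    rw [show d - 2 + 2 * 2 = d + 2 by omega] at this
    push_cast at this
    exact this
  have p1 : M ^ (-β - 1) ≤ K1 / N ^ d := by
    have := (pow_bound (d := d) 1 hc hN hG.lo).resolve_right (by omega)
    rw [show d - 2 + 2 * 1 = d by omega] at this
    push_cast at this
    exact this
  have m2 : 0 < M ^ (-β - 2) := Real.rpow_pos_of_pos hMp _
  have m1 : 0 < M ^ (-β - 1) := Real.rpow_pos_of_pos hMp _
  have hkq : 1 - k ≤ 2 * ((N - nrm z) / N) := by
    rw [hk]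
    have : 1 - M / N ^ 2 = (N ^ 2 - M) / N ^ 2 := by field_simp
    rw [this, hNM, div_le_iff₀ (by positivity)]
    have e : 2 * ((N - nrm z) / N) * N ^ 2 = 2 * (N - nrm z) * N := by field_simp
    rw [e]
    nlinarith
  -- the second differences
  have B2 : 2 * β * (β + 1) * (β + 2) * |(M + a + s) - (N ^ 2 - b + k * s)| * τ ^ 2 *
      (M / 2) ^ (-β - 3) ≤
      8 * β * (β + 1) * (β + 2) * 2 ^ (β + 3) * (2 + a + b) * K2 *
        ((N - nrm z) / N ^ (d + 1) * s) := by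
    have e1 : (M / 2) ^ (-β - 3) = 2 ^ (β + 3) * (M ^ (-β - 2) / M) := by
      rw [Real.div_rpow hMp.le (by norm_num), div_eq_mul_inv, ← Real.rpow_neg (by norm_num),
        show -(-β - 3) = β + 3 by ring, show -β - 3 = (-β - 2) - 1 by ring,
        Real.rpow_sub_one hMp.ne']
      ring
    have e2 : τ ^ 2 * (M ^ (-β - 2) / M) ≤ 4 * s * M ^ (-β - 2) := by
      calc τ ^ 2 * (M ^ (-β - 2) / M) ≤ (4 * s * M) * (M ^ (-β - 2) / M) :=
            mul_le_mul_of_nonneg_right hτ2 (by positivity)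
        _ = 4 * s * M ^ (-β - 2) := by field_simp
    have e3 : |(M + a + s) - (N ^ 2 - b + k * s)| ≤ (2 + a + b) * (N * (N - nrm z)) :=
      hD1.trans hΔ1
    have h2p : (0 : ℝ) < 2 ^ (β + 3) := by positivity
    calc 2 * β * (β + 1) * (β + 2) * |(M + a + s) - (N ^ 2 - b + k * s)| * τ ^ 2 *
          (M / 2) ^ (-β - 3)
        = 2 * β * (β + 1) * (β + 2) * 2 ^ (β + 3) * (|(M + a + s) - (N ^ 2 - b + k * s)| *
          (τ ^ 2 * (M ^ (-β - 2) / M))) := by rw [e1]; ring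
      _ ≤ 2 * β * (β + 1) * (β + 2) * 2 ^ (β + 3) * (((2 + a + b) * (N * (N - nrm z))) *
          (4 * s * (K2 / N ^ (d + 2)))) := by
          refine mul_le_mul_of_nonneg_left ?_ (by positivity)
          refine mul_le_mul e3 (e2.trans ?_) (by positivity)
            (mul_nonneg (by linarith) (mul_nonneg hN.le (by linarith)))
          exact mul_le_mul_of_nonneg_left p2 (by positivity)
      _ = _ := by
          rw [pow_succ N (d + 1)]
          field_simp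
          ring
  have B1 : 2 * (β * s * ((β + 1) * Δ * M ^ (-β - 2) + (1 - k) * M ^ (-β - 1))) ≤
      (2 * β * (β + 1) * (2 + a + b) * K2 + 4 * β * K1) * ((N - nrm z) / N ^ (d + 1) * s) := by
    have e1 : (β + 1) * Δ * M ^ (-β - 2) ≤
        (β + 1) * ((2 + a + b) * (N * (N - nrm z))) * (K2 / N ^ (d + 2)) := by
      refine mul_le_mul ?_ p2 m2.le ?_
      · exact mul_le_mul_of_nonneg_left hΔ1 (by linarith)
      · exact mul_nonneg (by linarith) (hΔ0.trans hΔ1)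
    have e2 : (1 - k) * M ^ (-β - 1) ≤ 2 * ((N - nrm z) / N) * (K1 / N ^ d) :=
      mul_le_mul hkq p1 m1.le (by
        have : 0 ≤ (N - nrm z) / N := div_nonneg (by linarith) hN.le
        linarith)
    calc 2 * (β * s * ((β + 1) * Δ * M ^ (-β - 2) + (1 - k) * M ^ (-β - 1)))
        ≤ 2 * (β * s * ((β + 1) * ((2 + a + b) * (N * (N - nrm z))) * (K2 / N ^ (d + 2)) +
          2 * ((N - nrm z) / N) * (K1 / N ^ d))) := by
          refine mul_le_mul_of_nonneg_left ?_ (by norm_num)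
          exact mul_le_mul_of_nonneg_left (add_le_add e1 e2) (by positivity)
      _ = _ := by
          rw [pow_succ N (d + 1), pow_succ N d]
          field_simp
          ring
  have hfin : 0 ≤ (N - nrm z) / N ^ (d + 1) * s :=
    mul_nonneg (div_nonneg (by linarith) (by positivity)) hs0
  calc _ ≤ 2 * β * (β + 1) * (β + 2) * |(M + a + s) - (N ^ 2 - b + k * s)| * τ ^ 2 *
        (M / 2) ^ (-β - 3) +
        2 * (β * s * ((β + 1) * Δ * M ^ (-β - 2) + (1 - k) * M ^ (-β - 1))) :=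
        add_le_add A2 (mul_le_mul_of_nonneg_left A1 (by norm_num))
    _ ≤ K3 * ((N - nrm z) / N ^ (d + 1) * s) := by
        rw [hK3]
        linarith
    _ ≤ (1 + a + b + K3) * ((N - nrm z) / N ^ (d + 1) * s) :=
        mul_le_mul_of_nonneg_right (by linarith) hfin
    _ = _ := by ring

end Pool.Agent.H68.BD
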